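import Pool.Agent.R699.UnitriNC2

/-!
# MP_55cbc6_al: the non-commuting number of `UU_n(F_q)` is not always a polynomial in `q`

For `n = 4` one has `ω(UU_4(F_q)) ≥ q^3 + q^2 - q + 1` when `q` is even and
`ω(UU_4(F_q)) ≤ q^3 + q^2 - q` when `q` is odd.
-/

namespace Pool.Agent.Results.MP_55cbc6_al.NotPolynomial

open Polynomial Pool.Agent.R699.UnitriNC

/-- The answer to Q1 is negative, already for `n = 4`. -/
theorem result :
    (∀ (F : Type) [Field F] [Finite F], Even (Nat.card F) →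
      Nat.card F ^ 3 + Nat.card F ^ 2 + 1 ≤ omega 4 F + Nat.card F) ∧
    (∀ (F : Type) [Field F] [Finite F], Odd (Nat.card F) →
      omega 4 F + Nat.card F ≤ Nat.card F ^ 3 + Nat.card F ^ 2) ∧
    ∃ n : ℕ, 4 ≤ n ∧ ¬ ∃ (P : ℝ[X]) (q₀ : ℕ), ∀ (F : Type) [Field F] [Finite F],
      q₀ ≤ Nat.card F → (omega n F : ℝ) = P.eval (Nat.card F : ℝ) := by
  refine ⟨fun F _ _ h => omega_lower F h, fun F _ _ h => omega_upper F h, 4, le_rfl, ?_⟩
  rintro ⟨P, q₀, h⟩
  obtain ⟨F, _, _, hF, hne⟩ := not_polynomial P q₀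
  exact hne (h F hF)

end Pool.Agent.Results.MP_55cbc6_al.NotPolynomial
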